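import Mathlib
import Pool.Agent.Helper36.SecConv
import Pool.Agent.Helper19.Sec.Local

/-!
Ramified quadratic twists of hyperelliptic curves with good reduction have no section of the
fundamental exact sequence.
-/

namespace Pool.Agent.Results.MP_896029_ag.RamifiedTwist

open Pool.Agent.Helper36 Polynomial IsLocalRing

/-- Let `A` be a discrete valuation ring in which `2` is invertible, with finite residue field and
fraction field `k` of characteristic zero.  Let `f ∈ A[X]` have even degree at least `6` and
invertible leading coefficient, and let its reduction modulo the maximal ideal be separable and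
without root in the residue field.  Let `c = u * ϖ ^ n` with `u` a unit, `ϖ` a uniformizer and `n`
odd.  Let `K` be an extension field of `k` containing `x`, `y` with `x` transcendental over `k` and
`c * y ^ 2 = f(x)`, for instance the function field of this hyperelliptic curve.
Then the fundamental exact sequence of `K` over `k` has no section. -/
theorem result {A k K Ω : Type*} [CommRing A] [IsDomain A] [IsDiscreteValuationRing A]
    [Finite (ResidueField A)] (h2 : IsUnit (2 : A)) [Field k] [CharZero k] [Algebra A k]
    [IsFractionRing A k] [Field K] [Field Ω] [Algebra k K] [Algebra K Ω] [Algebra k Ω]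
    [IsScalarTower k K Ω] [IsAlgClosure K Ω] (f : A[X]) (heven : Even f.natDegree)
    (h6 : 6 ≤ f.natDegree) (hlead : IsUnit f.leadingCoeff)
    (hsep : (f.map (residue A)).Separable)
    (hroot : ∀ z : ResidueField A, (f.map (residue A)).eval z ≠ 0)
    (ϖ : A) (hϖ : Irreducible ϖ) (u : A) (hu : IsUnit u) (n : ℕ) (hn : Odd n) (x y : K)
    (hx : Transcendental k x)
    (hxy : algebraMap k K (algebraMap A k (u * ϖ ^ n)) * y ^ 2 =
      aeval x (f.map (algebraMap A k))) :
    IsEmpty (PiOneSection k K Ω) :=
  Pool.Agent.Helper19.Sec.no_section h2 f heven h6 hlead hsep hroot ϖ hϖ u hu n hn x y hx hxy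

end Pool.Agent.Results.MP_896029_ag.RamifiedTwist
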